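import Mathlib
import Pool.Agent.W533.LP.Stm

/-!
# Kolmogorov's maximal inequality (one-sided) and the statement `PKol` of project LP
-/

namespace Pool.Agent.W166.LP.Kol

open MeasureTheory ProbabilityTheory Pool.Agent.W533.LP

/-- partial sums -/
noncomputable def sm {w : ℕ} (z : ℕ) (v : Fin w → ℝ) : ℝ :=
  ∑ i : Fin w, if (i : ℕ) < z then v i else 0

/-- the rest of the sum -/
noncomputable def tm {w : ℕ} (z : ℕ) (v : Fin w → ℝ) : ℝ :=
  ∑ i : Fin w, if (i : ℕ) < z then 0 else v i

lemma sm_add_tm {w : ℕ} (z : ℕ) (v : Fin w → ℝ) : sm z v + tm z v = ∑ i, v i := by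
  unfold sm tm
  rw [← Finset.sum_add_distrib]
  refine Finset.sum_congr rfl fun i _ => ?_
  by_cases h : (i : ℕ) < z <;> simp [h]

lemma sm_congr {w : ℕ} {z : ℕ} {v v' : Fin w → ℝ} (h : ∀ i : Fin w, (i : ℕ) < z → v i = v' i)
    {y : ℕ} (hy : y ≤ z) : sm y v = sm y v' := by
  unfold sm
  refine Finset.sum_congr rfl fun i _ => ?_
  by_cases hi : (i : ℕ) < y
  · simp [hi, h i (lt_of_lt_of_le hi hy)]
  · simp [hi]

lemma tm_congr {w : ℕ} {z : ℕ} {v v' : Fin w → ℝ} (h : ∀ i : Fin w, ¬ (i : ℕ) < z → v i = v' i) :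
    tm z v = tm z v' := by
  unfold tm
  refine Finset.sum_congr rfl fun i _ => ?_
  by_cases hi : (i : ℕ) < z
  · simp [hi]
  · simp [hi, h i hi]

lemma measurable_sm {w : ℕ} (z : ℕ) : Measurable (sm z : (Fin w → ℝ) → ℝ) := by
  unfold sm
  refine Finset.measurable_sum _ fun i _ => ?_
  by_cases hi : (i : ℕ) < z
  · simpa [hi] using measurable_pi_apply i
  · simp [hi]

lemma measurable_tm {w : ℕ} (z : ℕ) : Measurable (tm z : (Fin w → ℝ) → ℝ) := by
  unfold tm
  refine Finset.measurable_sum _ fun i _ => ?_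
  by_cases hi : (i : ℕ) < z
  · simp [hi]
  · simpa [hi] using measurable_pi_apply i

/-- first passage at time `z` -/
def fp {w : ℕ} (x : ℝ) (z : ℕ) (v : Fin w → ℝ) : Prop := x ≤ sm z v ∧ ∀ y < z, sm y v < x

open Classical in
/-- value at the first passage -/
noncomputable def fv {w : ℕ} (x : ℝ) (z : ℕ) (v : Fin w → ℝ) : ℝ := if fp x z v then sm z v else 0

lemma measurableSet_fp {w : ℕ} (x : ℝ) (z : ℕ) : MeasurableSet {v : Fin w → ℝ | fp x z v} := by
  have : {v : Fin w → ℝ | fp x z v} =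
      {v | x ≤ sm z v} ∩ ⋂ y : ℕ, ⋂ _ : y < z, {v | sm y v < x} := by
    ext v; simp [fp]
  rw [this]
  refine (measurableSet_le measurable_const (measurable_sm z)).inter ?_
  exact MeasurableSet.iInter fun y => MeasurableSet.iInter fun _ =>
    measurableSet_lt (measurable_sm y) measurable_const

lemma measurable_fv {w : ℕ} (x : ℝ) (z : ℕ) : Measurable (fv x z : (Fin w → ℝ) → ℝ) := by
  unfold fv
  exact Measurable.ite (measurableSet_fp x z) (measurable_sm z) measurable_const

lemma fp_congr {w : ℕ} {x : ℝ} {z : ℕ} {v v' : Fin w → ℝ}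
    (h : ∀ i : Fin w, (i : ℕ) < z → v i = v' i) : fp x z v ↔ fp x z v' := by
  unfold fp
  rw [sm_congr h le_rfl]
  refine and_congr_right fun _ => ?_
  refine forall_congr' fun y => forall_congr' fun hy => ?_
  rw [sm_congr h hy.le]

lemma fv_congr {w : ℕ} {x : ℝ} {z : ℕ} {v v' : Fin w → ℝ}
    (h : ∀ i : Fin w, (i : ℕ) < z → v i = v' i) : fv x z v = fv x z v' := by
  unfold fv
  have := fp_congr (x := x) h
  rw [sm_congr h le_rfl]
  by_cases h1 : fp x z v
  · rw [if_pos h1, if_pos (this.1 h1)]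
  · rw [if_neg h1, if_neg (fun h2 => h1 (this.2 h2))]

lemma fp_unique {w : ℕ} {x : ℝ} {y z : ℕ} {v : Fin w → ℝ} (hy : fp x y v) (hz : fp x z v) :
    y = z := by
  rcases lt_trichotomy y z with h | h | h
  · exact absurd hy.1 (not_le.2 (hz.2 y h))
  · exact h
  · exact absurd hz.1 (not_le.2 (hy.2 z h))

/-- extension by zero -/
noncomputable def ext {w : ℕ} (S : Finset (Fin w)) (u : S → ℝ) : Fin w → ℝ :=
  fun i => if h : i ∈ S then u ⟨i, h⟩ else 0

lemma measurable_ext {w : ℕ} (S : Finset (Fin w)) : Measurable (ext S) := by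
  refine measurable_pi_iff.2 fun i => ?_
  by_cases h : i ∈ S
  · simpa [ext, h] using measurable_pi_apply (⟨i, h⟩ : S)
  · simp [ext, h]

section
variable {Ω : Type*} [MeasurableSpace Ω] {μ : Measure Ω} {w : ℕ} {ξ : Fin w → Ω → ℝ}

/-- disjoint blocks are independent -/
def Blocks (ξ : Fin w → Ω → ℝ) (μ : Measure Ω) : Prop := ∀ S T : Finset (Fin w), Disjoint S T →
  IndepFun (fun ω (i : S) => ξ i ω) (fun ω (i : T) => ξ i ω) μ

lemma indep_fv_tm (hind : Blocks ξ μ) (x : ℝ) (z : ℕ) :
    IndepFun (fun ω => fv x z (fun i => ξ i ω)) (fun ω => tm z (fun i => ξ i ω)) μ := by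
  classical
  set S : Finset (Fin w) := Finset.univ.filter fun i => (i : ℕ) < z with hS
  set T : Finset (Fin w) := Finset.univ.filter fun i => ¬ (i : ℕ) < z with hT
  have hST : Disjoint S T := Finset.disjoint_filter_filter_not _ _ _
  have h := hind S T hST
  have h2 := h.comp ((measurable_fv x z).comp (measurable_ext S))
    ((measurable_tm z).comp (measurable_ext T))
  convert h2 using 1
  · funext ω
    refine fv_congr fun i hi => ?_
    have : i ∈ S := by simp [hS, hi]
    simp [ext, this]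
  · funext ω
    refine tm_congr fun i hi => ?_
    have : i ∈ T := by simp only [hT, Finset.mem_filter, Finset.mem_univ, true_and]; exact hi
    simp [ext, this]

/-- **Kolmogorov's maximal inequality**, one-sided form. -/
theorem kolmogorov [IsProbabilityMeasure μ] (hind : Blocks ξ μ) (hm : ∀ i, Measurable (ξ i))
    (hL : ∀ i, MemLp (ξ i) 2 μ) (h0 : ∀ i, ∫ ω, ξ i ω ∂μ = 0) {x : ℝ} (hx : 0 < x) :
    μ.real {ω | ∃ z ≤ w, x ≤ sm z (fun i => ξ i ω)} ≤ (∑ i, Var[ξ i; μ]) / x ^ 2 := by
  classical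
  set E : Set Ω := {ω | ∃ z ≤ w, x ≤ sm z (fun i => ξ i ω)} with hE
  have hmv : Measurable (fun ω => (fun i => ξ i ω : Fin w → ℝ)) := measurable_pi_iff.2 hm
  have hEm : MeasurableSet E := by
    have : E = ⋃ z : ℕ, ⋃ _ : z ≤ w, {ω | x ≤ sm z (fun i => ξ i ω)} := by
      ext ω; simp [hE]
    rw [this]
    refine MeasurableSet.iUnion fun z => MeasurableSet.iUnion fun _ => ?_
    exact measurableSet_le measurable_const ((measurable_sm z).comp hmv)
  -- square integrability
  have hsmL : ∀ z, MemLp (fun ω => sm z (fun i => ξ i ω)) 2 μ := by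
    intro z
    unfold sm
    refine memLp_finsetSum _ fun i _ => ?_
    by_cases hi : (i : ℕ) < z
    · simpa [hi] using hL i
    · simp [hi]
  have htmL : ∀ z, MemLp (fun ω => tm z (fun i => ξ i ω)) 2 μ := by
    intro z
    unfold tm
    refine memLp_finsetSum _ fun i _ => ?_
    by_cases hi : (i : ℕ) < z
    · simp [hi]
    · simpa [hi] using hL i
  have hfvL : ∀ z, MemLp (fun ω => fv x z (fun i => ξ i ω)) 2 μ := by
    intro z
    refine (hsmL z).mono ((measurable_fv x z).comp hmv).aestronglyMeasurable ?_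
    refine Filter.Eventually.of_forall fun ω => ?_
    unfold fv
    split_ifs
    · exact le_rfl
    · simp
  have htm0 : ∀ z, ∫ ω, tm z (fun i => ξ i ω) ∂μ = 0 := by
    intro z
    unfold tm
    rw [integral_finsetSum]
    · refine Finset.sum_eq_zero fun i _ => ?_
      by_cases hi : (i : ℕ) < z
      · simp [hi]
      · simp [hi, h0 i]
    · intro i _
      by_cases hi : (i : ℕ) < z
      · simp [hi]
      · simpa [hi] using (hL i).integrable one_le_two
  have hprod0 : ∀ z, ∫ ω, fv x z (fun i => ξ i ω) * tm z (fun i => ξ i ω) ∂μ = 0 := by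
    intro z
    rw [(indep_fv_tm hind x z).integral_fun_mul_eq_mul_integral
      (hfvL z).aestronglyMeasurable (htmL z).aestronglyMeasurable, htm0, mul_zero]
  have hprodI : ∀ z, Integrable (fun ω => fv x z (fun i => ξ i ω) * tm z (fun i => ξ i ω)) μ :=
    fun z => (hfvL z).integrable_mul (htmL z)
  -- the total sum
  have hsum : ∀ ω, sm w (fun i => ξ i ω) = ∑ i, ξ i ω := by
    intro ω
    unfold sm
    refine Finset.sum_congr rfl fun i _ => ?_
    simp [i.2]
  have hvar : ∫ ω, (∑ i, ξ i ω) ^ 2 ∂μ = ∑ i, Var[ξ i; μ] := by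
    have h1 : Var[∑ i, ξ i; μ] = ∑ i, Var[ξ i; μ] :=
      IndepFun.variance_sum (fun i _ => hL i) (fun i _ j _ hij => by
        have h := hind {i} {j} (by simpa using hij)
        have h1 : Measurable (fun u : (({i} : Finset (Fin w)) → ℝ) => u ⟨i, by simp⟩) :=
          measurable_pi_apply _
        have h2 : Measurable (fun u : (({j} : Finset (Fin w)) → ℝ) => u ⟨j, by simp⟩) :=
          measurable_pi_apply _
        exact h.comp h1 h2)
    rw [← h1, variance_of_integral_eq_zero]
    · simp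
    · have h2 : Measurable (fun ω => ∑ i, ξ i ω) := Finset.measurable_sum _ fun i _ => hm i
      convert h2.aemeasurable using 1
      ext ω; simp
    · have : ∫ ω, (∑ i, ξ i) ω ∂μ = ∑ i, ∫ ω, ξ i ω ∂μ := by
        simp only [Finset.sum_apply]
        exact integral_finsetSum _ fun i _ => (hL i).integrable one_le_two
      rw [this]
      exact Finset.sum_eq_zero fun i _ => h0 i
  have hsqI : Integrable (fun ω => (∑ i, ξ i ω) ^ 2) μ := by
    have := (hsmL w).integrable_sq
    simpa only [hsum] using this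
  -- the pointwise inequality
  have hpt : ∀ ω, x ^ 2 * E.indicator (fun _ => (1 : ℝ)) ω
      + 2 * ∑ z ∈ Finset.range (w + 1), fv x z (fun i => ξ i ω) * tm z (fun i => ξ i ω)
      ≤ (∑ i, ξ i ω) ^ 2 := by
    intro ω
    by_cases hω : ω ∈ E
    · obtain ⟨z0, hz0, hxz0⟩ := hω
      have hex : ∃ z, x ≤ sm z (fun i => ξ i ω) := ⟨z0, hxz0⟩
      set z := Nat.find hex with hz
      have hzs : x ≤ sm z (fun i => ξ i ω) := Nat.find_spec hex
      have hzw : z ≤ w := (Nat.find_min' hex hxz0).trans hz0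
      have hfp : fp x z (fun i => ξ i ω) :=
        ⟨hzs, fun y hy => not_le.1 (Nat.find_min hex hy)⟩
      have hsingle : ∑ z ∈ Finset.range (w + 1), fv x z (fun i => ξ i ω) * tm z (fun i => ξ i ω)
          = sm z (fun i => ξ i ω) * tm z (fun i => ξ i ω) := by
        rw [Finset.sum_eq_single z]
        · unfold fv; rw [if_pos hfp]
        · intro y _ hyz
          have : ¬ fp x y (fun i => ξ i ω) := fun h => hyz (fp_unique h hfp)
          unfold fv; rw [if_neg this, zero_mul]
        · intro h; exact absurd (Finset.mem_range.2 (Nat.lt_succ_of_le hzw)) h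
      rw [hsingle, Set.indicator_of_mem (show ω ∈ E from ⟨z0, hz0, hxz0⟩), ← sm_add_tm z]
      nlinarith [sq_nonneg (tm z (fun i => ξ i ω)), mul_self_nonneg (sm z (fun i => ξ i ω) - x)]
    · have hz : ∑ z ∈ Finset.range (w + 1), fv x z (fun i => ξ i ω) * tm z (fun i => ξ i ω)
          = 0 := by
        refine Finset.sum_eq_zero fun z hz => ?_
        have : ¬ fp x z (fun i => ξ i ω) := fun h =>
          hω ⟨z, Nat.lt_succ_iff.1 (Finset.mem_range.1 hz), h.1⟩
        unfold fv; rw [if_neg this, zero_mul]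
      rw [hz, Set.indicator_of_notMem hω]
      nlinarith [sq_nonneg (∑ i, ξ i ω)]
  have hint : ∫ ω, (x ^ 2 * E.indicator (fun _ => (1 : ℝ)) ω
      + 2 * ∑ z ∈ Finset.range (w + 1), fv x z (fun i => ξ i ω) * tm z (fun i => ξ i ω)) ∂μ
      = x ^ 2 * μ.real E := by
    rw [integral_add, integral_const_mul, integral_const_mul, integral_finsetSum _
      (fun z _ => hprodI z), Finset.sum_eq_zero (fun z _ => hprod0 z), integral_indicator hEm]
    · simp
    · exact ((integrable_const _).indicator hEm).const_mul _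
    · exact (integrable_finsetSum _ fun z _ => hprodI z).const_mul _
  have hle := integral_mono
    ((((integrable_const (1 : ℝ)).indicator hEm).const_mul (x ^ 2)).add
      ((integrable_finsetSum (Finset.range (w + 1)) fun z _ => hprodI z).const_mul 2)) hsqI hpt
  rw [le_div_iff₀ (by positivity), mul_comm]
  calc x ^ 2 * μ.real E = _ := hint.symm
    _ ≤ _ := hle
    _ = _ := hvar

end

/-- Pairs of coordinates of an independent family: disjoint blocks are independent. -/
lemma blocks_of_pairs {Ω : Type} [MeasurableSpace Ω] {μ : Measure Ω} {w : ℕ}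
    (X Y : Fin w → Ω → ℕ) (hind : iIndepFun (Sum.elim X Y) μ)
    (hm : ∀ i, Measurable (Sum.elim X Y i)) (c : ℝ) :
    Blocks (fun i ω => (X i ω : ℝ) - (Y i ω : ℝ) - c) μ := by
  classical
  intro S T hST
  set S' : Finset (Fin w ⊕ Fin w) := S.image Sum.inl ∪ S.image Sum.inr with hS'
  set T' : Finset (Fin w ⊕ Fin w) := T.image Sum.inl ∪ T.image Sum.inr with hT'
  have hd : Disjoint S' T' := by
    rw [Finset.disjoint_left] at hST ⊢
    intro k hk hk'
    rcases k with k | k
    · simp only [hS', hT', Finset.mem_union, Finset.mem_image, Sum.inl.injEq, exists_eq_right,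
        reduceCtorEq, and_false, exists_false, or_false] at hk hk'
      exact hST hk hk'
    · simp only [hS', hT', Finset.mem_union, Finset.mem_image, Sum.inr.injEq, exists_eq_right,
        reduceCtorEq, and_false, exists_false, false_or] at hk hk'
      exact hST hk hk'
  have h := hind.indepFun_finset S' T' hd hm
  have hSl : ∀ i ∈ S, (Sum.inl i : Fin w ⊕ Fin w) ∈ S' := fun i hi => by simp [hS', hi]
  have hSr : ∀ i ∈ S, (Sum.inr i : Fin w ⊕ Fin w) ∈ S' := fun i hi => by simp [hS', hi]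
  have hTl : ∀ i ∈ T, (Sum.inl i : Fin w ⊕ Fin w) ∈ T' := fun i hi => by simp [hT', hi]
  have hTr : ∀ i ∈ T, (Sum.inr i : Fin w ⊕ Fin w) ∈ T' := fun i hi => by simp [hT', hi]
  have h2 := h.comp
    (φ := fun (u : S' → ℕ) (i : S) => ((u ⟨Sum.inl i.1, hSl i.1 i.2⟩ : ℝ) -
      (u ⟨Sum.inr i.1, hSr i.1 i.2⟩ : ℝ) - c))
    (ψ := fun (u : T' → ℕ) (i : T) => ((u ⟨Sum.inl i.1, hTl i.1 i.2⟩ : ℝ) -
      (u ⟨Sum.inr i.1, hTr i.1 i.2⟩ : ℝ) - c))
    (by
      refine measurable_pi_iff.2 fun i => ?_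
      exact (((measurable_of_countable (fun n : ℕ => (n : ℝ))).comp
        (measurable_pi_apply (⟨Sum.inl i.1, hSl i.1 i.2⟩ : S'))).sub
        ((measurable_of_countable (fun n : ℕ => (n : ℝ))).comp
        (measurable_pi_apply (⟨Sum.inr i.1, hSr i.1 i.2⟩ : S')))).sub_const c)
    (by
      refine measurable_pi_iff.2 fun i => ?_
      exact (((measurable_of_countable (fun n : ℕ => (n : ℝ))).comp
        (measurable_pi_apply (⟨Sum.inl i.1, hTl i.1 i.2⟩ : T'))).sub
        ((measurable_of_countable (fun n : ℕ => (n : ℝ))).comp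
        (measurable_pi_apply (⟨Sum.inr i.1, hTr i.1 i.2⟩ : T')))).sub_const c)
  exact h2

lemma geoFam_one {Ω ι : Type} [MeasurableSpace Ω] {μ : Measure Ω} {p : ι → ℝ} {X : ι → Ω → ℕ}
    (h : GeoFam μ p X) (i : ι) : GeoFam μ (fun _ : Fin 1 => p i) (fun _ => X i) := by
  have := h.prob
  exact ⟨h.prob, fun _ => h.pos i, fun _ => h.meas i, iIndepFun.of_subsingleton,
    fun _ k => h.law i k⟩

/-- Subtask LP-KOL. -/
theorem pKol (hM : PMom) : PKol := by
  classical
  intro Ω _ μ a a' w X Y x hx hG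
  have := hG.prob
  rcases Nat.eq_zero_or_pos w with rfl | hw
  · have : {ω : Ω | ∃ z : ℕ, z ≤ 0 ∧ z * (mean a - mean a') + x ≤
        ∑ i : Fin 0, if (i : ℕ) < z then ((X i ω : ℝ) - (Y i ω : ℝ)) else 0} = ∅ := by
      ext ω
      simp only [Set.mem_ofPred_eq, Set.mem_empty_iff_false, iff_false, not_exists, not_and]
      intro z hz
      have : z = 0 := Nat.le_zero.1 hz
      subst this
      simpa using hx
    rw [this]
    simp
  have ha : 0 ≤ a ∧ a < 1 := hG.pos (Sum.inl ⟨0, hw⟩)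
  have ha' : 0 ≤ a' ∧ a' < 1 := hG.pos (Sum.inr ⟨0, hw⟩)
  obtain ⟨C, _, hMa⟩ := hM a ha.2
  obtain ⟨C', _, hMa'⟩ := hM a' ha'.2
  have hX : ∀ i, MemLp (fun ω => (X i ω : ℝ)) 4 μ ∧ ∫ ω, (X i ω : ℝ) ∂μ = mean a ∧
      variance (fun ω => (X i ω : ℝ)) μ = vari a := by
    intro i
    have h := hMa μ a 1 (fun _ => X i) le_rfl (geoFam_one hG (Sum.inl i))
    simp only [Fin.sum_univ_one, Nat.cast_one, one_mul] at h
    exact ⟨h.1, h.2.1, h.2.2.1⟩
  have hY : ∀ i, MemLp (fun ω => (Y i ω : ℝ)) 4 μ ∧ ∫ ω, (Y i ω : ℝ) ∂μ = mean a' ∧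
      variance (fun ω => (Y i ω : ℝ)) μ = vari a' := by
    intro i
    have h := hMa' μ a' 1 (fun _ => Y i) le_rfl (geoFam_one hG (Sum.inr i))
    simp only [Fin.sum_univ_one, Nat.cast_one, one_mul] at h
    exact ⟨h.1, h.2.1, h.2.2.1⟩
  have hX2 : ∀ i, MemLp (fun ω => (X i ω : ℝ)) 2 μ := fun i =>
    (hX i).1.mono_exponent (by norm_num)
  have hY2 : ∀ i, MemLp (fun ω => (Y i ω : ℝ)) 2 μ := fun i =>
    (hY i).1.mono_exponent (by norm_num)
  set c : ℝ := mean a - mean a' with hc
  set ξ : Fin w → Ω → ℝ := fun i ω => (X i ω : ℝ) - (Y i ω : ℝ) - c with hξ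
  have hmX : ∀ i, Measurable (fun ω => (X i ω : ℝ)) := fun i =>
    (measurable_of_countable (fun n : ℕ => (n : ℝ))).comp (hG.meas (Sum.inl i))
  have hmY : ∀ i, Measurable (fun ω => (Y i ω : ℝ)) := fun i =>
    (measurable_of_countable (fun n : ℕ => (n : ℝ))).comp (hG.meas (Sum.inr i))
  have hm : ∀ i, Measurable (ξ i) := fun i => ((hmX i).sub (hmY i)).sub_const c
  have hL : ∀ i, MemLp (ξ i) 2 μ := fun i => ((hX2 i).sub (hY2 i)).sub (memLp_const c)
  have h0 : ∀ i, ∫ ω, ξ i ω ∂μ = 0 := by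
    intro i
    have hXI := (hX2 i).integrable one_le_two
    have hYI := (hY2 i).integrable one_le_two
    simp only [hξ]
    have hXY : Integrable (fun ω => (X i ω : ℝ) - (Y i ω : ℝ)) μ := hXI.sub hYI
    rw [integral_sub hXY (integrable_const c), integral_sub hXI hYI, (hX i).2.1,
      (hY i).2.1]
    simp [hc]
  have hV : ∀ i, Var[ξ i; μ] = vari a + vari a' := by
    intro i
    simp only [hξ]
    have hmXY : Measurable (fun ω => (X i ω : ℝ) - (Y i ω : ℝ)) := (hmX i).sub (hmY i)
    rw [variance_sub_const hmXY.aestronglyMeasurable c]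
    have hij : IndepFun (X i) (Y i) μ :=
      hG.indep.indepFun (i := Sum.inl i) (j := Sum.inr i) (by simp)
    have hij' : IndepFun (fun ω => (X i ω : ℝ)) (fun ω => (Y i ω : ℝ)) μ :=
      hij.comp (measurable_of_countable (fun n : ℕ => (n : ℝ)))
        (measurable_of_countable (fun n : ℕ => (n : ℝ)))
    rw [variance_fun_sub (hX2 i) (hY2 i), hij'.covariance_eq_zero (hX2 i) (hY2 i), (hX i).2.2,
      (hY i).2.2]
    ring
  have hB : Blocks ξ μ := blocks_of_pairs X Y hG.indep hG.meas c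
  have hk := kolmogorov hB hm hL h0 hx
  rw [Finset.sum_congr rfl (fun i _ => hV i), Finset.sum_const, Finset.card_univ,
    Fintype.card_fin, nsmul_eq_mul] at hk
  refine le_trans (measureReal_mono ?_) hk
  rintro ω ⟨z, hz, hle⟩
  refine ⟨z, hz, ?_⟩
  have hcnt : ∑ i : Fin w, (if (i : ℕ) < z then (1 : ℝ) else 0) = z := by
    rw [Finset.sum_ite, Finset.sum_const, Finset.sum_const_zero, add_zero, nsmul_eq_mul, mul_one]
    congr 1
    have : (Finset.univ.filter fun i : Fin w => (i : ℕ) < z).card = z := by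
      rw [Fin.card_filter_val_lt]
      exact min_eq_right hz
    exact this
  have : sm z (fun i => ξ i ω) =
      (∑ i : Fin w, if (i : ℕ) < z then ((X i ω : ℝ) - (Y i ω : ℝ)) else 0) - z * c := by
    rw [← hcnt, Finset.sum_mul, ← Finset.sum_sub_distrib]
    unfold sm
    refine Finset.sum_congr rfl fun i _ => ?_
    by_cases hi : (i : ℕ) < z <;> simp [hi, hξ]
  rw [this]
  linarith

end Pool.Agent.W166.LP.Kol
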